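import Pool.Agent.V8H9.LD.Low
import Mathlib.FieldTheory.Finite.GaloisField
import Mathlib.FieldTheory.PrimitiveElement

/-!
# Many algebraic units of given degree and bounded height in `[1/2, 1]`
-/

set_option autoImplicit false

namespace Pool.Agent.V8H34.PC2

open Polynomial Finset
open Pool.Agent.V8H9.LD (mono mono_monic mono_natDegree mono_coeff mono_coeff_le mono_aeval mono_inj)

/-- an irreducible monic polynomial of degree `d` modulo `2`, with coefficients `0`, `1` -/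
theorem exists_irr2 (d : ℕ) (hd : 1 ≤ d) :
    ∃ g : (ZMod 2)[X], g.Monic ∧ g.natDegree = d ∧ Irreducible g := by
  have h1 : Module.finrank (ZMod 2) (GaloisField 2 d) = d := GaloisField.finrank 2 (by omega)
  obtain ⟨α, hα⟩ := Field.exists_primitive_element (ZMod 2) (GaloisField 2 d)
  have hint : IsIntegral (ZMod 2) α := IsIntegral.of_finite _ _
  refine ⟨minpoly (ZMod 2) α, minpoly.monic hint, ?_, minpoly.irreducible hint⟩
  rw [(Field.primitive_element_iff_minpoly_natDegree_eq (ZMod 2) α).1 hα, h1]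

theorem zmod2 (x : ZMod 2) : ∃ r : ℤ, (r = 0 ∨ r = 1) ∧ (Int.castRingHom (ZMod 2)) r = x := by
  fin_cases x
  · exact ⟨0, Or.inl rfl, map_zero _⟩
  · exact ⟨1, Or.inr rfl, map_one _⟩

/-- irreducible polynomials with the constant term `-1` -/
theorem irr_units (n : ℕ) (hn : 1 ≤ n) : ∃ r : Fin n → ℤ, (∀ i, r i = 0 ∨ r i = 1) ∧
    ∀ u : Fin n → ℤ, Irreducible ((mono (Fin.cons (-1) (fun i => r i + 2 * u i) : Fin (n + 1) → ℤ)).map
      (Int.castRingHom ℚ)) := by
  obtain ⟨g, hg1, hg2, hg3⟩ := exists_irr2 (n + 1) (by omega)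
  choose r hr1 hr2 using fun i : Fin n => zmod2 (g.coeff (i + 1))
  refine ⟨r, hr1, fun u => ?_⟩
  have hg0 : g.coeff 0 = 1 := by
    have h0 : g.coeff 0 ≠ 0 := by
      intro h0
      have hX : X ∣ g := X_dvd_iff.2 h0
      have h2 := (hg3.dvd_iff).1 hX
      rcases h2 with h2 | h2
      · exact not_isUnit_X h2
      · have h3 := natDegree_eq_of_degree_eq (degree_eq_degree_of_associated h2)
        rw [hg2, natDegree_X] at h3
        omega
    revert h0
    generalize g.coeff 0 = x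
    revert x
    decide
  obtain ⟨a, ha⟩ : ∃ a : Fin (n + 1) → ℤ, a = Fin.cons (-1) (fun i => r i + 2 * u i) := ⟨_, rfl⟩
  rw [← ha]
  have hmap : (mono a).map (Int.castRingHom (ZMod 2)) = g := by
    ext i
    rw [coeff_map]
    rcases lt_trichotomy i (n + 1) with h | h | h
    · have h1 := mono_coeff a ⟨i, h⟩
      simp only at h1
      rw [h1]
      rcases Nat.eq_zero_or_pos i with h2 | h2
      · subst h2
        have h3 : a ⟨0, h⟩ = -1 := by
          rw [ha]
          rfl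
        rw [h3, hg0]
        decide
      · obtain ⟨j, rfl⟩ : ∃ j, i = j + 1 := ⟨i - 1, by omega⟩
        have h3 : a ⟨j + 1, h⟩ = r ⟨j, by omega⟩ + 2 * u ⟨j, by omega⟩ := by
          rw [ha]
          rfl
        rw [h3, map_add, map_mul, hr2]
        have h4 : (Int.castRingHom (ZMod 2)) 2 = 0 := by decide
        rw [h4, zero_mul, add_zero]
    · rw [h]
      have h1 : (mono a).coeff (n + 1) = 1 := by
        have := mono_monic a
        unfold Monic leadingCoeff at this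
        rwa [mono_natDegree] at this
      have h2 : g.coeff (n + 1) = 1 := by
        unfold Monic leadingCoeff at hg1
        rwa [hg2] at hg1
      rw [h1, h2, map_one]
    · rw [coeff_eq_zero_of_natDegree_lt (by rw [mono_natDegree]; exact h),
        coeff_eq_zero_of_natDegree_lt (by rw [hg2]; exact h), map_zero]
  have h1 : Irreducible (mono a) := by
    apply (mono_monic a).irreducible_of_irreducible_map (Int.castRingHom (ZMod 2))
    rw [hmap]
    exact hg3
  exact ((mono_monic a).irreducible_iff_irreducible_map_fraction_map (K := ℚ)).1 h1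

/-- many algebraic units between `1 / 2` and `1` -/
theorem many (n H : ℕ) (hH : 63 ≤ H) (S : Set ℝ) (hS : S.Finite)
    (hmem : ∀ (P : ℤ[X]) (x : ℝ), P.Monic → P.natDegree = n + 3 → P.coeff 0 = -1 →
      (∀ i, |P.coeff i| ≤ (H : ℤ)) →
      Irreducible (P.map (Int.castRingHom ℚ)) → aeval x P = 0 → 1 / 2 ≤ x → x ≤ 1 → x ∈ S) :
    ((H : ℝ) / 126) ^ (n + 2) ≤ (S.ncard : ℝ) := by
  classical
  obtain ⟨r, hr01, hirr⟩ := irr_units (n + 2) (by omega)
  obtain ⟨m, hm⟩ : ∃ m : ℕ, m = H / 63 := ⟨_, rfl⟩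
  have hm1 : 1 ≤ m := by omega
  have hm63 : 63 * m ≤ H := by omega
  have hm126 : H ≤ 126 * m := by omega
  -- the coefficients
  obtain ⟨v, hv⟩ : ∃ v : (Fin (n + 2) → Fin m) → Fin (n + 2) → ℤ, v = fun b => Fin.cons
      (-(20 * (m : ℤ) + ((b 0 : ℕ) : ℤ))) (Fin.cons (30 * (m : ℤ) + ((b 1 : ℕ) : ℤ))
        (fun j : Fin n => ((b j.succ.succ : ℕ) : ℤ))) := ⟨_, rfl⟩
  have hv0 : ∀ b, v b 0 = -(20 * (m : ℤ) + ((b 0 : ℕ) : ℤ)) := fun b => by rw [hv]; rfl
  have hv1 : ∀ b, v b 1 = 30 * (m : ℤ) + ((b 1 : ℕ) : ℤ) := fun b => by rw [hv]; rfl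
  have hv2 : ∀ b (j : Fin n), v b j.succ.succ = ((b j.succ.succ : ℕ) : ℤ) := fun b j => by
    rw [hv]
    rfl
  obtain ⟨f, hf⟩ : ∃ f : (Fin (n + 2) → Fin m) → (Fin (n + 3) → ℤ), f = fun b =>
    Fin.cons (-1) (fun i => r i + 2 * v b i) := ⟨_, rfl⟩
  have hf0 : ∀ b, f b 0 = -1 := fun b => by rw [hf]; rfl
  have hfs : ∀ b (i : Fin (n + 2)), f b i.succ = r i + 2 * v b i := fun b i => by rw [hf]; rfl
  have hirr' : ∀ b, Irreducible ((mono (f b)).map (Int.castRingHom ℚ)) := by
    intro b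
    rw [hf]
    exact hirr (v b)
  have hcase : ∀ i : Fin (n + 2), i = 0 ∨ i = 1 ∨ ∃ j : Fin n, i = j.succ.succ := by
    intro i
    rcases Fin.eq_zero_or_eq_succ i with h | ⟨j, rfl⟩
    · exact Or.inl h
    · rcases Fin.eq_zero_or_eq_succ j with h | ⟨j, rfl⟩
      · right
        left
        rw [h]
        rfl
      · right
        right
        exact ⟨j, rfl⟩
  have hle : ∀ b i, |f b i| ≤ (H : ℤ) := by
    intro b i
    rcases Fin.eq_zero_or_eq_succ i with h | ⟨j, rfl⟩
    · rw [h, hf0, abs_neg, abs_one]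
      omega
    · rw [hfs]
      have hr := hr01 j
      have hb := (b j).2
      rw [abs_le]
      rcases hcase j with h | h | ⟨j', rfl⟩
      · subst h
        rw [hv0]
        omega
      · subst h
        rw [hv1]
        omega
      · rw [hv2]
        omega
  have hsum : ∀ b (x : ℝ), aeval x (mono (f b)) = x ^ (n + 3) - 1 + (r 0 + 2 * v b 0 : ℤ) * x +
      (r 1 + 2 * v b 1 : ℤ) * x ^ 2 +
      ∑ j : Fin n, ((r j.succ.succ + 2 * v b j.succ.succ : ℤ) : ℝ) * x ^ ((j : ℕ) + 3) := by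
    intro b x
    rw [mono_aeval, Fin.sum_univ_succ, Fin.sum_univ_succ, Fin.sum_univ_succ, hf0]
    have e0 : f b (Fin.succ 0) = r 0 + 2 * v b 0 := hfs b 0
    have e1 : f b (Fin.succ (Fin.succ 0)) = r 1 + 2 * v b 1 := hfs b 1
    have e2 : ∀ j : Fin n, f b j.succ.succ.succ = r j.succ.succ + 2 * v b j.succ.succ := fun j =>
      hfs b j.succ.succ
    rw [e0, e1]
    simp only [e2, Fin.val_succ, Fin.val_zero]
    push_cast
    ring
  have hmr : (1 : ℝ) ≤ m := by exact_mod_cast hm1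
  have hbd : ∀ b (j : Fin n), (0 : ℝ) ≤ ((r j.succ.succ + 2 * v b j.succ.succ : ℤ) : ℝ) ∧
      ((r j.succ.succ + 2 * v b j.succ.succ : ℤ) : ℝ) ≤ 2 * m := by
    intro b j
    have hr := hr01 j.succ.succ
    have hb := (b j.succ.succ).2
    have h1 := hv2 b j
    constructor
    · have : (0 : ℤ) ≤ r j.succ.succ + 2 * v b j.succ.succ := by omega
      exact_mod_cast this
    · have : r j.succ.succ + 2 * v b j.succ.succ ≤ 2 * m := by omega
      exact_mod_cast this
  have hgeo : ∑ j : Fin n, ((1 : ℝ) / 2) ^ ((j : ℕ) + 3) ≤ 1 / 4 := by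
    rw [Fin.sum_univ_eq_sum_range (fun j => ((1 : ℝ) / 2) ^ (j + 3)) n]
    have h1 : ∀ k : ℕ, ∑ j ∈ range k, ((1 : ℝ) / 2) ^ (j + 3) = 1 / 4 - (1 / 4) * (1 / 2) ^ k := by
      intro k
      induction k with
      | zero => simp
      | succ k ih =>
        rw [sum_range_succ, ih]
        ring
    rw [h1]
    have : (0 : ℝ) ≤ (1 / 4) * (1 / 2) ^ n := by positivity
    linarith
  have hroot : ∀ b, ∃ x : ℝ, 1 / 2 ≤ x ∧ x ≤ 1 ∧ aeval x (mono (f b)) = 0 := by
    intro b
    have hr0 := hr01 0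
    have hr1 := hr01 1
    have hb0 := (b 0).2
    have hb1 := (b 1).2
    have c0 : r 0 + 2 * v b 0 ≤ 1 - 40 * m ∧ -(42 * m) ≤ r 0 + 2 * v b 0 := by
      rw [hv0]
      omega
    have c1 : r 1 + 2 * v b 1 ≤ 62 * m ∧ 60 * m ≤ r 1 + 2 * v b 1 := by
      rw [hv1]
      omega
    have c0r : ((r 0 + 2 * v b 0 : ℤ) : ℝ) ≤ 1 - 40 * m ∧ -(42 * m) ≤ ((r 0 + 2 * v b 0 : ℤ) : ℝ) := by
      constructor
      · exact_mod_cast c0.1
      · exact_mod_cast c0.2
    have c1r : ((r 1 + 2 * v b 1 : ℤ) : ℝ) ≤ 62 * m ∧ 60 * m ≤ ((r 1 + 2 * v b 1 : ℤ) : ℝ) := by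
      constructor
      · exact_mod_cast c1.1
      · exact_mod_cast c1.2
    have hcont : ContinuousOn (fun x : ℝ => aeval x (mono (f b))) (Set.Icc (1 / 2) 1) :=
      (Polynomial.continuous_aeval (mono (f b))).continuousOn
    have h := intermediate_value_Icc (by norm_num : (1 / 2 : ℝ) ≤ 1) hcont
    have hlow : aeval (1 / 2 : ℝ) (mono (f b)) ≤ 0 := by
      rw [hsum]
      have h1 : ((1 : ℝ) / 2) ^ (n + 3) ≤ 1 := pow_le_one₀ (by norm_num) (by norm_num)
      have h2 : ∑ j : Fin n, ((r j.succ.succ + 2 * v b j.succ.succ : ℤ) : ℝ) *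
          (1 / 2 : ℝ) ^ ((j : ℕ) + 3) ≤ 2 * m * (1 / 4) := by
        calc _ ≤ ∑ j : Fin n, 2 * (m : ℝ) * (1 / 2 : ℝ) ^ ((j : ℕ) + 3) := by
              apply sum_le_sum
              intro j _
              exact mul_le_mul_of_nonneg_right (hbd b j).2 (by positivity)
          _ = 2 * m * ∑ j : Fin n, (1 / 2 : ℝ) ^ ((j : ℕ) + 3) := by rw [mul_sum]
          _ ≤ _ := mul_le_mul_of_nonneg_left hgeo (by positivity)
      linarith [c0r.1, c1r.1]
    have hup : 0 ≤ aeval (1 : ℝ) (mono (f b)) := by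
      rw [hsum]
      have h2 : 0 ≤ ∑ j : Fin n, ((r j.succ.succ + 2 * v b j.succ.succ : ℤ) : ℝ) *
          (1 : ℝ) ^ ((j : ℕ) + 3) := by
        apply sum_nonneg
        intro j _
        exact mul_nonneg (hbd b j).1 (by positivity)
      have h1 : (1 : ℝ) ^ (n + 3) = 1 := one_pow _
      rw [h1]
      linarith [c0r.2, c1r.2]
    obtain ⟨x, hx, hx0⟩ := h ⟨hlow, hup⟩
    exact ⟨x, hx.1, hx.2, hx0⟩
  choose ρ hρ0 hρ1 hρ using hroot
  have hfinj : Function.Injective f := by
    intro b b' h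
    funext i
    have h1 := congrFun h i.succ
    rw [hfs, hfs] at h1
    apply Fin.ext
    rcases hcase i with h2 | h2 | ⟨j, rfl⟩
    · subst h2
      rw [hv0, hv0] at h1
      omega
    · subst h2
      rw [hv1, hv1] at h1
      omega
    · rw [hv2, hv2] at h1
      omega
  have hrinj : Function.Injective ρ := by
    intro b b' h
    apply hfinj
    apply mono_inj (f b) (f b') (hirr' b) (hirr' b') (ρ b) (hρ b)
    rw [h]
    exact hρ b'
  have h1 : ((univ : Finset (Fin (n + 2) → Fin m)).image ρ).card = m ^ (n + 2) := by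
    rw [Finset.card_image_of_injective _ hrinj, card_univ]
    simp
  have h2 : (((univ : Finset (Fin (n + 2) → Fin m)).image ρ : Finset ℝ) : Set ℝ) ⊆ S := by
    intro x hx
    rw [Finset.mem_coe, Finset.mem_image] at hx
    obtain ⟨b, _, rfl⟩ := hx
    refine hmem (mono (f b)) (ρ b) (mono_monic _) (mono_natDegree _) ?_
      (mono_coeff_le (by omega) _ (hle b)) (hirr' b) (hρ b) (hρ0 b) (hρ1 b)
    have := mono_coeff (f b) 0
    simp only [Fin.val_zero] at this
    rw [this, hf0]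
  have h3 := Set.ncard_le_ncard h2 hS
  rw [Set.ncard_coe_finset, h1] at h3
  have h4 : ((H : ℝ) / 126) ^ (n + 2) ≤ (m : ℝ) ^ (n + 2) := by
    apply pow_le_pow_left₀ (by positivity)
    rw [div_le_iff₀ (by norm_num)]
    have : (H : ℝ) ≤ ((126 * m : ℕ) : ℝ) := by exact_mod_cast hm126
    push_cast at this
    linarith
  refine h4.trans ?_
  exact_mod_cast h3

end Pool.Agent.V8H34.PC2
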